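import Pool.Agent.Y340.MH.Gen

/-!
# Menger-bounded groups generated by few K-analytic sets are Hurewicz-bounded

Let `G` be an arbitrary topological group and `A` a K-analytic subset of `G`. If the set
`A * A * A ∪ A⁻¹ * A⁻¹` is Menger-bounded in `G`, then `A` is Hurewicz-bounded in `G`.

Consequently a Menger-bounded topological group which is generated by fewer than `𝔟` K-analytic
subsets is Hurewicz-bounded, and its product with every Menger-bounded group is Menger-bounded.
This includes all analytic groups.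
-/

set_option autoImplicit false

open Set Filter Topology Pointwise

namespace Pool.Agent.Results.MP_913206_gt.KAnalyticGenerated

universe u

/-- `O`: the (nontrivial) open covers of `X`. -/
def Covers (X : Type u) [TopologicalSpace X] : Set (Set (Set X)) :=
  {W | (∀ V ∈ W, IsOpen V) ∧ (∀ x : X, ∃ V ∈ W, x ∈ V) ∧ univ ∉ W}

/-- `Γ`: the open γ-covers of `X`. -/
def GammaCovers (X : Type u) [TopologicalSpace X] : Set (Set (Set X)) :=
  {W | W ∈ Covers X ∧ W.Infinite ∧ ∀ x : X, {V | V ∈ W ∧ x ∉ V}.Finite}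

/-- `O_nbd`: the covers `{g • U : g ∈ G}`, for `U` an open neighbourhood of the identity
(the cover being nontrivial, i.e. `U ≠ G`). -/
def NbdCovers (G : Type u) [Group G] [TopologicalSpace G] : Set (Set (Set G)) :=
  {W | W ∈ Covers G ∧ ∃ U : Set G, IsOpen U ∧ (1 : G) ∈ U ∧ W = {V | ∃ g : G, V = g • U}}

/-- `Ω_nbd`: the covers `{F * U : F ⊆ G finite}`, for `U` an open neighbourhood of the identity
such that `F * U ≠ G` for every finite `F`. -/
def OmegaNbdCovers (G : Type u) [Group G] [TopologicalSpace G] : Set (Set (Set G)) :=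
  {W | ∃ U : Set G, IsOpen U ∧ (1 : G) ∈ U ∧ (∀ F : Set G, F.Finite → F * U ≠ univ) ∧
    W = {V | ∃ F : Set G, F.Finite ∧ V = F * U}}

/-- The selection principle `S_1(A, B)`. -/
def S1 {X : Type u} (A B : Set (Set (Set X))) : Prop :=
  ∀ W : ℕ → Set (Set X), (∀ n, W n ∈ A) → ∃ V : ℕ → Set X, (∀ n, V n ∈ W n) ∧ range V ∈ B

/-- The selection principle `S_fin(A, B)`. -/
def Sfin {X : Type u} (A B : Set (Set (Set X))) : Prop :=
  ∀ W : ℕ → Set (Set X), (∀ n, W n ∈ A) →
    ∃ F : ℕ → Set (Set X), (∀ n, (F n).Finite ∧ F n ⊆ W n) ∧ (⋃ n, F n) ∈ B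

/-- Menger-boundedness `S_fin(O_nbd, O)`. -/
def MengerBounded (G : Type u) [Group G] [TopologicalSpace G] : Prop :=
  Sfin (NbdCovers G) (Covers G)

/-- Hurewicz-boundedness `S_1(Ω_nbd, Γ)`. -/
def HurewiczBounded (G : Type u) [Group G] [TopologicalSpace G] : Prop :=
  S1 (OmegaNbdCovers G) (GammaCovers G)

/-- `A` is K-analytic: the union of the values of an upper semicontinuous map from the Baire
space to the compact subsets of `X`. -/
def KAnalytic {X : Type u} [TopologicalSpace X] (A : Set X) : Prop :=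
  ∃ F : (ℕ → ℕ) → Set X, (∀ a, IsCompact (F a)) ∧
    (∀ a, ∀ O : Set X, IsOpen O → F a ⊆ O → ∀ᶠ b in 𝓝 a, F b ⊆ O) ∧ (⋃ a, F a) = A

/-- `S` is Menger-bounded in `G`: for all neighbourhoods `V n` of `1` there are finite `F n` such
that the sets `F n * V n` cover `S`. -/
def MengerIn {G : Type u} [Group G] [TopologicalSpace G] (S : Set G) : Prop :=
  ∀ V : ℕ → Set G, (∀ n, V n ∈ 𝓝 (1 : G)) → ∃ F : ℕ → Finset G,
    ∀ g ∈ S, ∃ n, g ∈ (F n : Set G) * V n

/-- `A` is Hurewicz-bounded in `G`: for all neighbourhoods `V n` of `1` there are finite `F n` such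
that every point of `A` is in all but finitely many of the sets `F n * V n`. -/
def HurewiczIn {G : Type u} [Group G] [TopologicalSpace G] (A : Set G) : Prop :=
  ∀ V : ℕ → Set G, (∀ n, V n ∈ 𝓝 (1 : G)) → ∃ F : ℕ → Finset G,
    ∀ a ∈ A, ∀ᶠ n in atTop, a ∈ (F n : Set G) * V n

/-- The bounding number `𝔟`. -/
noncomputable def bounding : Cardinal.{0} :=
  sInf {κ | ∃ S : Set (ℕ → ℕ), Cardinal.mk S = κ ∧
    ¬ ∃ k : ℕ → ℕ, ∀ h ∈ S, ∀ᶠ n in atTop, h n ≤ k n}

section

variable {G : Type u} [Group G] [TopologicalSpace G]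

omit [TopologicalSpace G] in
theorem mem_mul_iff {F : Finset G} {V : Set G} {g : G} :
    g ∈ (F : Set G) * V ↔ ∃ q ∈ F, q⁻¹ * g ∈ V := by
  constructor
  · rintro ⟨q, hq, v, hv, rfl⟩
    exact ⟨q, hq, by simpa using hv⟩
  · rintro ⟨q, hq, h⟩
    exact ⟨q, hq, q⁻¹ * g, h, by simp⟩

theorem mengerIn_iff {S : Set G} : MengerIn S ↔ Pool.Agent.Y340.MH.MBS S := by
  unfold MengerIn Pool.Agent.Y340.MH.MBS
  simp only [mem_mul_iff]

theorem hurewiczIn_iff {S : Set G} : HurewiczIn S ↔ Pool.Agent.Y340.MH.RHB S := by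
  unfold HurewiczIn Pool.Agent.Y340.MH.RHB
  simp only [mem_mul_iff]

theorem mengerIn_univ [IsTopologicalGroup G] (hM : MengerBounded G) :
    MengerIn (univ : Set G) := by
  classical
  intro V' hV'
  choose V hVV hVo hV1 using fun n => mem_nhds_iff.1 (hV' n)
  by_cases htriv : ∃ n, V n = univ
  · obtain ⟨n, hn⟩ := htriv
    refine ⟨fun _ => {1}, fun g _ => ⟨n, ?_⟩⟩
    have : g ∈ V n := hn ▸ mem_univ g
    exact mem_mul_iff.2 ⟨1, by simp, by simpa using hVV n this⟩
  push Not at htriv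
  obtain ⟨F, hF, hFc⟩ := hM (fun n => {W | ∃ g : G, W = g • V n}) (by
    intro n
    refine ⟨⟨?_, ?_, ?_⟩, V n, hVo n, hV1 n, rfl⟩
    · rintro _ ⟨g, rfl⟩
      exact (hVo n).smul g
    · intro x
      refine ⟨x • V n, ⟨x, rfl⟩, ?_⟩
      exact ⟨1, hV1 n, by simp⟩
    · rintro ⟨g, hg⟩
      refine htriv n ?_
      rw [eq_univ_iff_forall]
      intro x
      have : g * x ∈ g • V n := by rw [← hg]; exact mem_univ _
      rw [← smul_eq_mul, smul_mem_smul_set_iff] at this
      exact this)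
  have hch : ∀ n, ∀ W ∈ F n, ∃ g : G, W = g • V n := fun n W hW => (hF n).2 hW
  choose! q hq using hch
  refine ⟨fun n => (hF n).1.toFinset.image (q n), fun g _ => ?_⟩
  obtain ⟨W, hW, hgW⟩ := hFc.2.1 g
  obtain ⟨n, hn⟩ := mem_iUnion.1 hW
  refine ⟨n, mem_mul_iff.2 ⟨q n W, Finset.mem_image_of_mem _ ((hF n).1.mem_toFinset.2 hn), ?_⟩⟩
  rw [hq n W hn, mem_smul_set_iff_inv_smul_mem, smul_eq_mul] at hgW
  exact hVV n hgW

theorem mengerBounded_of [IsTopologicalGroup G] (hM : MengerIn (univ : Set G)) :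
    MengerBounded G := by
  intro W hW
  choose hc U hUo hU1 hWU using hW
  obtain ⟨F, hF⟩ := hM U fun n => (hUo n).mem_nhds (hU1 n)
  refine ⟨fun n => (fun q => q • U n) '' (F n : Set G), fun n => ⟨?_, ?_⟩, ?_, ?_, ?_⟩
  · exact (F n).finite_toSet.image _
  · rintro _ ⟨q, -, rfl⟩
    rw [hWU n]
    exact ⟨q, rfl⟩
  · intro V hV
    obtain ⟨n, q, -, rfl⟩ := mem_iUnion.1 hV
    exact (hUo n).smul q
  · intro x
    obtain ⟨n, hn⟩ := hF x (mem_univ x)
    obtain ⟨q, hq, u, hu, rfl⟩ := hn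
    exact ⟨q • U n, mem_iUnion.2 ⟨n, q, hq, rfl⟩, u, hu, rfl⟩
  · intro hu
    obtain ⟨n, q, -, hq⟩ := mem_iUnion.1 hu
    refine (hc n).2.2 ?_
    rw [hWU n]
    exact ⟨q, hq.symm⟩

theorem hurewiczBounded_of [IsTopologicalGroup G] (hH : HurewiczIn (univ : Set G)) :
    HurewiczBounded G := by
  intro W hW
  choose O hO h1 hO' hWO using hW
  obtain ⟨F, hF⟩ := hH O fun n => (hO n).mem_nhds (h1 n)
  have hmem : ∀ x : G, ∀ᶠ n in atTop, x ∈ (F n : Set G) * O n := fun x => hF x (mem_univ x)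
  have hne : ∀ n, (F n : Set G) * O n ≠ univ := fun n => hO' n _ (F n).finite_toSet
  refine ⟨fun n => (F n : Set G) * O n, fun n => ?_, ⟨?_, ?_, ?_⟩, ?_, ?_⟩
  · rw [hWO n]
    exact ⟨F n, (F n).finite_toSet, rfl⟩
  · rintro _ ⟨n, rfl⟩
    exact (hO n).mul_left
  · intro x
    obtain ⟨n, hn⟩ := (hmem x).exists
    exact ⟨_, ⟨n, rfl⟩, hn⟩
  · rintro ⟨n, hn⟩
    exact hne n hn
  · intro hfin
    have : ∃ V ∈ range (fun n => (F n : Set G) * O n),
        {n | (F n : Set G) * O n = V}.Infinite := by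
      by_contra hcon
      push Not at hcon
      have hu : (univ : Set ℕ) ⊆ ⋃ V ∈ range (fun n => (F n : Set G) * O n),
          {n | (F n : Set G) * O n = V} := fun n _ =>
        mem_biUnion (mem_range_self n) rfl
      exact infinite_univ ((hfin.biUnion hcon).subset hu)
    obtain ⟨V, ⟨m, hm⟩, hV⟩ := this
    refine hne m ?_
    rw [eq_univ_iff_forall]
    intro x
    have hx := hmem x
    rw [← Nat.cofinite_eq_atTop, eventually_cofinite] at hx
    obtain ⟨n, hn, hn'⟩ := hV.exists_notMem_finite hx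
    have hn2 : x ∈ (F n : Set G) * O n := by
      by_contra hc
      exact hn' hc
    have e : (F n : Set G) * O n = V := hn
    have e2 : (F m : Set G) * O m = V := hm
    rw [e2, ← e]
    exact hn2
  · intro x
    have hx := hmem x
    rw [← Nat.cofinite_eq_atTop, eventually_cofinite] at hx
    refine (hx.image (fun n => (F n : Set G) * O n)).subset ?_
    rintro _ ⟨⟨n, rfl⟩, hn⟩
    exact ⟨n, hn, rfl⟩

/-- The product of a Hurewicz-bounded and a Menger-bounded group is Menger-bounded. -/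
theorem mengerIn_prod {H : Type u} [Group H] [TopologicalSpace H]
    (hG : HurewiczIn (univ : Set G)) (hH : MengerIn (univ : Set H)) :
    MengerIn (univ : Set (G × H)) := by
  classical
  intro V hV
  have hVn : ∀ n, ∃ A ∈ 𝓝 (1 : G), ∃ B ∈ 𝓝 (1 : H), A ×ˢ B ⊆ V n := by
    intro n
    have h := hV n
    rw [show (1 : G × H) = (1, 1) from rfl, nhds_prod_eq, mem_prod_iff] at h
    exact h
  choose A hA B hB hAB using hVn
  obtain ⟨F, hF⟩ := hG A hA
  choose E hE using fun m => hH (fun n => B (m + n)) fun n => hB (m + n)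
  let K : ℕ → Finset H := fun n => (Finset.range (n + 1)).biUnion fun m => E m (n - m)
  refine ⟨fun n => F n ×ˢ K n, ?_⟩
  rintro ⟨g, h⟩ -
  obtain ⟨m, hm⟩ := eventually_atTop.1 (hF g (mem_univ g))
  obtain ⟨n, hn⟩ := hE m h (mem_univ h)
  obtain ⟨q, hq, hqg⟩ := mem_mul_iff.1 (hm (m + n) (Nat.le_add_right m n))
  obtain ⟨r, hr, hrh⟩ := mem_mul_iff.1 hn
  refine ⟨m + n, mem_mul_iff.2 ⟨(q, r), ?_, hAB _ ⟨hqg, hrh⟩⟩⟩
  refine Finset.mem_product.2 ⟨hq, Finset.mem_biUnion.2 ⟨m, ?_, ?_⟩⟩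
  · exact Finset.mem_range.2 (by omega)
  · rwa [Nat.add_sub_cancel_left]

end

/-- A K-analytic subset `A` of a topological group such that `A * A * A ∪ A⁻¹ * A⁻¹` is
Menger-bounded is Hurewicz-bounded. A Menger-bounded group generated by fewer than `𝔟` K-analytic
sets is Hurewicz-bounded, and its product with every Menger-bounded group is Menger-bounded; in
particular this holds for analytic groups. -/
theorem result :
    (∀ (G : Type u) [Group G] [TopologicalSpace G] [IsTopologicalGroup G] (A : Set G),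
      KAnalytic A → MengerIn (A * A * A ∪ A⁻¹ * A⁻¹) → HurewiczIn A) ∧
    (∀ (G : Type u) [Group G] [TopologicalSpace G] [IsTopologicalGroup G] (𝒜 : Set (Set G)),
      (∀ A ∈ 𝒜, KAnalytic A) → Cardinal.mk 𝒜 < Cardinal.lift.{u} bounding →
      Subgroup.closure (⋃₀ 𝒜) = ⊤ → MengerBounded G →
        HurewiczBounded G ∧
        ∀ (H : Type u) [Group H] [TopologicalSpace H] [IsTopologicalGroup H],
          MengerBounded H → MengerBounded (G × H)) ∧
    (∀ (G : Type u) [Group G] [TopologicalSpace G] [IsTopologicalGroup G]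
      [TopologicalSpace.MetrizableSpace G] [TopologicalSpace.SeparableSpace G],
      MeasureTheory.AnalyticSet (univ : Set G) → MengerBounded G → HurewiczBounded G) := by
  have key : ∀ (G : Type u) [Group G] [TopologicalSpace G] [IsTopologicalGroup G]
      (𝒜 : Set (Set G)), (∀ A ∈ 𝒜, KAnalytic A) →
      Cardinal.mk 𝒜 < Cardinal.lift.{u} bounding → Subgroup.closure (⋃₀ 𝒜) = ⊤ →
      MengerBounded G → HurewiczIn (univ : Set G) := by
    intro G _ _ _ 𝒜 hA hcard hgen hM
    rw [hurewiczIn_iff]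
    refine Pool.Agent.Y340.MH.rhb_of_generated (mengerIn_iff.1 (mengerIn_univ hM)) hcard
      (A := fun A : 𝒜 => (A : Set G)) (fun A => hA A A.2) ?_
    rw [← sUnion_eq_iUnion]
    exact hgen
  refine ⟨?_, ?_, ?_⟩
  · intro G _ _ _ A hA hM
    rw [mengerIn_iff] at hM
    rw [hurewiczIn_iff]
    exact Pool.Agent.Y340.MH.rel_main hA hM
  · intro G _ _ _ 𝒜 hA hcard hgen hM
    have hH := key G 𝒜 hA hcard hgen hM
    exact ⟨hurewiczBounded_of hH, fun H _ _ _ hMH =>
      mengerBounded_of (mengerIn_prod hH (mengerIn_univ hMH))⟩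
  · intro G _ _ _ _ _ hG hM
    refine hurewiczBounded_of (key G {univ} ?_ ?_ ?_ hM)
    · rintro _ rfl
      rw [MeasureTheory.AnalyticSet] at hG
      rcases hG with hG | ⟨f, hf, hfr⟩
      · exact absurd hG (Set.univ_nonempty (α := G)).ne_empty
      · rw [← hfr]
        exact Pool.Agent.Y340.MH.kAnalytic_range hf
    · rw [Cardinal.mk_singleton]
      have h1 : Cardinal.lift.{u} (1 : Cardinal.{0}) < Cardinal.lift.{u} bounding :=
        Cardinal.lift_lt.2 (Cardinal.one_lt_aleph0.trans Pool.Agent.Y340.MH.aleph0_lt_bNumber)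
      simpa using h1
    · rw [sUnion_singleton]
      exact Subgroup.closure_univ

end Pool.Agent.Results.MP_913206_gt.KAnalyticGenerated
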